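import Pool.Agent.Helper54.PW.Defs

/-!
# The predicates `RealAct` and `Realizable` of helper54's specification (SpecB), one common copy
-/

set_option autoImplicit false
open scoped Pointwise

namespace Pool.Agent.Helper54.PW

/-- a finite Galois extension `F` of `k(X)` with a surjection from its group onto `G`, trivial on the
decomposition groups of all places at which `X` is finite, with decomposition group at some place at
infinity mapping onto `P` -/
def RealAct (k : Type) [Field k] {G : Type} [Group G] (P : Subgroup G) : Prop :=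
  ∃ (F : Type) (_ : Field F) (_ : Algebra (RatFunc k) F),
    FiniteDimensional (RatFunc k) F ∧ IsGalois (RatFunc k) F ∧
    ∃ ρ : (F ≃ₐ[RatFunc k] F) →* G, Function.Surjective ρ ∧
    (∀ A : ValuationSubring F, A ≠ ⊤ →
      (∀ c : k, algebraMap (RatFunc k) F (algebraMap k (RatFunc k) c) ∈ A) →
      tX k F ∈ A → ∀ σ : F ≃ₐ[RatFunc k] F, σ • A = A → ρ σ = 1) ∧
    ∃ A : ValuationSubring F, A ≠ ⊤ ∧
      (∀ c : k, algebraMap (RatFunc k) F (algebraMap k (RatFunc k) c) ∈ A) ∧ tX k F ∉ A ∧
      ∀ g, g ∈ P ↔ ∃ σ : F ≃ₐ[RatFunc k] F, σ • A = A ∧ ρ σ = g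

/-- the conclusion of the generalized purely wild inertia conjecture for `G`, `P`, `x` (as in the frozen
statement) -/
def Realizable (k : Type) [Field k] (G : Type) [Group G] {r : ℕ} (P : Fin r → Subgroup G)
    (x : Fin r → ValuationSubring (RatFunc k)) : Prop :=
  ∃ (L : Type) (_ : Field L) (_ : Algebra (RatFunc k) L),
    FiniteDimensional (RatFunc k) L ∧ IsGalois (RatFunc k) L ∧
    ∃ φ : G ≃* (L ≃ₐ[RatFunc k] L),
      (∀ A : ValuationSubring L,
        (∀ c : k, algebraMap (RatFunc k) L (algebraMap k (RatFunc k) c) ∈ A) →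
        A.comap (algebraMap (RatFunc k) L) ∉ Set.range x →
        A.inertiaSubgroup (RatFunc k) = ⊥) ∧
      ∀ i, ∃ A : ValuationSubring L,
        A.comap (algebraMap (RatFunc k) L) = x i ∧
        (A.inertiaSubgroup (RatFunc k)).map (A.decompositionSubgroup (RatFunc k)).subtype
          = (P i).map φ.toMonoidHom

end Pool.Agent.Helper54.PW
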