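import Pool.Agent.Helper54.PW.Defs

set_option autoImplicit false
open scoped Pointwise Polynomial

namespace Pool.Agent.Helper54.PW

theorem cc_transcendental_X (k : Type) [Field k] : Transcendental k (RatFunc.X : RatFunc k) := by
  intro h
  obtain ⟨P, hP, h0⟩ := h
  apply hP
  have : algebraMap k[X] (RatFunc k) P = 0 := by
    rw [← h0]
    conv_lhs => rw [← Polynomial.aeval_X_left_apply P]
    rw [← RatFunc.algebraMap_X, Polynomial.aeval_algebraMap_apply]
  exact (IsFractionRing.injective k[X] (RatFunc k)) (by simpa using this)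

/-- an algebra endomorphism of the rational function field with prescribed transcendental value -/
theorem cc_exists_hom (k : Type) [Field k] (u : RatFunc k) (hu : Transcendental k u) :
    ∃ f : RatFunc k →ₐ[k] RatFunc k, f RatFunc.X = u := by
  have hinj : Function.Injective (Polynomial.aeval u : k[X] →ₐ[k] RatFunc k) :=
    transcendental_iff_injective.1 hu
  refine ⟨RatFunc.liftAlgHom (Polynomial.aeval u)
    (nonZeroDivisors_le_comap_nonZeroDivisors_of_injective _ hinj), ?_⟩
  have := RatFunc.liftAlgHom_apply_div (Polynomial.aeval u)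
    (nonZeroDivisors_le_comap_nonZeroDivisors_of_injective _ hinj) Polynomial.X 1
  simpa using this

theorem cc_hom_ext (k : Type) [Field k] {L : Type} [Field L] (f g : RatFunc k →+* L)
    (hk : ∀ c : k, f (algebraMap k _ c) = g (algebraMap k _ c))
    (hX : f RatFunc.X = g RatFunc.X) : f = g := by
  have h1 : f.comp (algebraMap k[X] (RatFunc k)) = g.comp (algebraMap k[X] (RatFunc k)) := by
    apply Polynomial.ringHom_ext
    · intro a
      have := hk a
      simpa [← Polynomial.algebraMap_eq, ← IsScalarTower.algebraMap_apply] using this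
    · simpa using hX
  exact IsLocalization.ringHom_ext (nonZeroDivisors k[X]) h1

theorem exists_coord (k : Type) [Field k] (c : k) : ∃ θ : RatFunc k ≃+* RatFunc k,
    (∀ a : k, θ (algebraMap k _ a) = algebraMap k _ a) ∧
    θ RatFunc.X = (RatFunc.X - algebraMap k _ c)⁻¹ := by
  have hX := cc_transcendental_X k
  set u : RatFunc k := (RatFunc.X - algebraMap k _ c)⁻¹ with hu
  set v : RatFunc k := algebraMap k _ c + RatFunc.X⁻¹ with hv
  have hu' : Transcendental k u := by
    intro h
    apply hX
    have : IsAlgebraic k (u⁻¹ + algebraMap k _ c) := h.inv.add (isAlgebraic_algebraMap c)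
    simpa [hu] using this
  have hv' : Transcendental k v := by
    intro h
    apply hX
    have : IsAlgebraic k ((v - algebraMap k _ c)⁻¹) := (h.sub (isAlgebraic_algebraMap c)).inv
    simpa [hv] using this
  obtain ⟨f, hf⟩ := cc_exists_hom k u hu'
  obtain ⟨g, hg⟩ := cc_exists_hom k v hv'
  have h1 : (f : RatFunc k →+* RatFunc k).comp (g : RatFunc k →+* RatFunc k) = RingHom.id _ := by
    apply cc_hom_ext
    · intro a
      show f (g (algebraMap k _ a)) = algebraMap k _ a
      rw [g.commutes, f.commutes]
    · show f (g RatFunc.X) = RatFunc.X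
      rw [hg, hv, map_add, f.commutes, map_inv₀, hf, hu, inv_inv]
      ring
  have h2 : (g : RatFunc k →+* RatFunc k).comp (f : RatFunc k →+* RatFunc k) = RingHom.id _ := by
    apply cc_hom_ext
    · intro a
      show g (f (algebraMap k _ a)) = algebraMap k _ a
      rw [f.commutes, g.commutes]
    · show g (f RatFunc.X) = RatFunc.X
      rw [hf, hu, map_inv₀, map_sub, g.commutes, hg, hv, add_sub_cancel_left, inv_inv]
  refine ⟨RingEquiv.ofRingHom (f : RatFunc k →+* RatFunc k) (g : RatFunc k →+* RatFunc k) h1 h2,
    ?_, ?_⟩
  · intro a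
    exact f.commutes a
  · exact hf

end Pool.Agent.Helper54.PW
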