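import Pool.Agent.Helper18.PW.Places1
import Pool.Agent.Helper92.PW.DefsReal
import Pool.Agent.Helper92.PW.CoordC

set_option autoImplicit false
open scoped Pointwise

namespace Pool.Agent.Helper54.PW

/-- over an algebraically closed constant field the inertia group of a place is the whole
decomposition group -/
theorem inertia_eq_top {k K F : Type} [Field k] [IsAlgClosed k] [Field K] [Field F] [Algebra k F]
    [Algebra k K] [Algebra K F] [IsScalarTower k K F] (hF : FF k F) (A : ValuationSubring F)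
    (hA : IsPlace k A) : A.inertiaSubgroup K = ⊤ := by
  rw [eq_top_iff]
  intro σ _
  show σ ∈ MonoidHom.ker _
  rw [MonoidHom.mem_ker]
  ext z
  obtain ⟨a, rfl⟩ := IsLocalRing.residue_surjective z
  show σ • IsLocalRing.residue A a = IsLocalRing.residue A a
  rw [← IsLocalRing.ResidueField.residue_smul]
  obtain ⟨c, hc⟩ := residue hF A hA (a : F) a.2
  have hσc : σ • (⟨algebraMap k F c, hA.2 c⟩ : A) = ⟨algebraMap k F c, hA.2 c⟩ := by
    apply Subtype.ext
    show (σ : F ≃ₐ[K] F) (algebraMap k F c) = algebraMap k F c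
    rw [IsScalarTower.algebraMap_apply k K F, AlgEquiv.commutes]
  have h1 : IsLocalRing.residue A a = IsLocalRing.residue A ⟨algebraMap k F c, hA.2 c⟩ := by
    rw [← sub_eq_zero, ← map_sub, IsLocalRing.residue_eq_zero_iff]
    exact ValuationSubring.coe_mem_nonunits_iff.1 hc
  rw [IsLocalRing.ResidueField.residue_smul, h1, ← IsLocalRing.ResidueField.residue_smul, hσc]

/-- the group isomorphism induced by a change of the variable -/
noncomputable def autTransfer {k L L' : Type} [Field k] [Field L] [Algebra (RatFunc k) L]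
    [Field L'] [Algebra (RatFunc k) L'] (θ : RatFunc k ≃+* RatFunc k) (e : L ≃+* L')
    (he : ∀ f, algebraMap (RatFunc k) L' f = e (algebraMap (RatFunc k) L (θ f))) :
    (L ≃ₐ[RatFunc k] L) ≃* (L' ≃ₐ[RatFunc k] L') where
  toFun σ := AlgEquiv.ofRingEquiv (f := (e.symm.trans (σ : L ≃+* L)).trans e) (by
    intro f
    show e (σ (e.symm (algebraMap (RatFunc k) L' f))) = algebraMap (RatFunc k) L' f
    rw [he, RingEquiv.symm_apply_apply, AlgEquiv.commutes])
  invFun τ := AlgEquiv.ofRingEquiv (f := (e.trans (τ : L' ≃+* L')).trans e.symm) (by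
    intro f
    show e.symm (τ (e (algebraMap (RatFunc k) L f))) = algebraMap (RatFunc k) L f
    have h := he (θ.symm f)
    rw [RingEquiv.apply_symm_apply] at h
    rw [← h, AlgEquiv.commutes, h, RingEquiv.symm_apply_apply])
  left_inv σ := by
    ext y
    show e.symm (e (σ (e.symm (e y)))) = σ y
    simp
  right_inv τ := by
    ext y
    show e (e.symm (τ (e (e.symm y)))) = τ y
    simp
  map_mul' σ τ := by
    ext y
    show e (σ (τ (e.symm y))) = e (σ (e.symm (e (τ (e.symm y)))))
    simp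

theorem autTransfer_apply {k L L' : Type} [Field k] [Field L] [Algebra (RatFunc k) L]
    [Field L'] [Algebra (RatFunc k) L'] (θ : RatFunc k ≃+* RatFunc k) (e : L ≃+* L')
    (he : ∀ f, algebraMap (RatFunc k) L' f = e (algebraMap (RatFunc k) L (θ f)))
    (σ : L ≃ₐ[RatFunc k] L) (y : L') : autTransfer θ e he σ y = e (σ (e.symm y)) := rfl

theorem smul_transfer {k L L' : Type} [Field k] [Field L] [Algebra (RatFunc k) L]
    [Field L'] [Algebra (RatFunc k) L'] (θ : RatFunc k ≃+* RatFunc k) (e : L ≃+* L')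
    (he : ∀ f, algebraMap (RatFunc k) L' f = e (algebraMap (RatFunc k) L (θ f)))
    (σ : L ≃ₐ[RatFunc k] L) (A : ValuationSubring L) (A' : ValuationSubring L')
    (hA : ∀ y, y ∈ A ↔ e y ∈ A') : autTransfer θ e he σ • A' = A' ↔ σ • A = A := by
  rw [eq_comm, eq_comm (b := A), ValuationSubring.ext_iff, ValuationSubring.ext_iff]
  simp only [ValuationSubring.mem_pointwise_smul_iff_inv_smul_mem]
  constructor
  · intro h y
    have h1 := h (e y)
    rw [← hA] at h1
    rw [h1, hA, ← map_inv]
    show autTransfer θ e he σ⁻¹ (e y) ∈ A' ↔ e (σ⁻¹ y) ∈ A'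
    rw [autTransfer_apply, RingEquiv.symm_apply_apply]
  · intro h y
    have h1 := h (e.symm y)
    rw [hA, RingEquiv.apply_symm_apply] at h1
    rw [h1, hA, ← map_inv]
    rfl

theorem cover_transfer {k : Type} [Field k] [IsAlgClosed k] {G : Type} [Group G]
    (P : Subgroup G) (x : ValuationSubring (RatFunc k)) (hx : x ≠ ⊤)
    (hxk : ∀ c : k, algebraMap k (RatFunc k) c ∈ x) {L L' : Type} [Field L] [Field L']
    [Algebra (RatFunc k) L] [Algebra (RatFunc k) L'] [FiniteDimensional (RatFunc k) L]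
    [IsGalois (RatFunc k) L] (θ : RatFunc k ≃+* RatFunc k) (e : L ≃+* L')
    (he : ∀ f, algebraMap (RatFunc k) L' f = e (algebraMap (RatFunc k) L (θ f)))
    (hθk : ∀ a : k, θ (algebraMap k _ a) = algebraMap k _ a) (hθX : θ RatFunc.X ∉ x)
    (φ : G ≃* (L ≃ₐ[RatFunc k] L))
    (h1 : ∀ A : ValuationSubring L,
        (∀ c : k, algebraMap (RatFunc k) L (algebraMap k (RatFunc k) c) ∈ A) →
        A.comap (algebraMap (RatFunc k) L) ∉ Set.range (fun _ : Fin 1 => x) →
        A.inertiaSubgroup (RatFunc k) = ⊥)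
    (A₀ : ValuationSubring L) (hA₀ : A₀.comap (algebraMap (RatFunc k) L) = x)
    (hP : (A₀.inertiaSubgroup (RatFunc k)).map (A₀.decompositionSubgroup (RatFunc k)).subtype
          = P.map φ.toMonoidHom) :
    FiniteDimensional (RatFunc k) L' ∧ IsGalois (RatFunc k) L' ∧
      ∃ φ : G ≃* (L' ≃ₐ[RatFunc k] L'),
        (∀ A : ValuationSubring L', A ≠ ⊤ →
          (∀ c : k, algebraMap (RatFunc k) L' (algebraMap k (RatFunc k) c) ∈ A) →
          tX k L' ∈ A → ∀ σ : L' ≃ₐ[RatFunc k] L', σ • A = A → σ = 1) ∧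
        ∃ A : ValuationSubring L', A ≠ ⊤ ∧
          (∀ c : k, algebraMap (RatFunc k) L' (algebraMap k (RatFunc k) c) ∈ A) ∧ tX k L' ∉ A ∧
          ∀ σ : L' ≃ₐ[RatFunc k] L', σ • A = A ↔ ∃ g ∈ P, φ g = σ := by
  have hcomp : (algebraMap (RatFunc k) L').comp (θ.symm : RatFunc k →+* RatFunc k)
      = (e : L →+* L').comp (algebraMap (RatFunc k) L) := by
    ext f
    show algebraMap (RatFunc k) L' (θ.symm f) = e (algebraMap (RatFunc k) L f)
    rw [he, RingEquiv.apply_symm_apply]
  let _ : Algebra k L := ((algebraMap (RatFunc k) L).comp (algebraMap k (RatFunc k))).toAlgebra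
  have : IsScalarTower k (RatFunc k) L := IsScalarTower.of_algebraMap_eq (fun _ => rfl)
  have hFF : FF k L := ff_of_algebraic k L
  refine ⟨Module.Finite.of_equiv_equiv θ.symm e hcomp, IsGalois.of_equiv_equiv hcomp,
    φ.trans (autTransfer θ e he), ?_, ?_⟩
  · intro A' hA' hk hX σ' hσ'
    set A := A'.comap (e : L →+* L') with hAdef
    have hAmem : ∀ y, y ∈ A ↔ e y ∈ A' := fun y => ValuationSubring.mem_comap
    obtain ⟨σ, rfl⟩ := (autTransfer θ e he).surjective σ'
    rw [smul_transfer θ e he σ A A' hAmem] at hσ'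
    have hAk : ∀ c : k, algebraMap (RatFunc k) L (algebraMap k (RatFunc k) c) ∈ A := by
      intro c
      rw [hAmem]
      have := hk c
      rwa [he, hθk] at this
    have hAtop : A ≠ ⊤ := by
      intro h
      apply hA'
      rw [eq_top_iff]
      intro y _
      have : e.symm y ∈ A := by rw [h]; trivial
      rw [hAmem, RingEquiv.apply_symm_apply] at this
      exact this
    have hne : A.comap (algebraMap (RatFunc k) L) ∉ Set.range (fun _ : Fin 1 => x) := by
      rintro ⟨_, h⟩
      apply hθX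
      have h' : x = A.comap (algebraMap (RatFunc k) L) := h
      rw [h', ValuationSubring.mem_comap, hAmem, ← he]
      exact hX
    have hin := h1 A hAk hne
    rw [inertia_eq_top hFF A ⟨hAtop, hAk⟩] at hin
    have : (⟨σ, hσ'⟩ : A.decompositionSubgroup (RatFunc k)) ∈
        (⊥ : Subgroup (A.decompositionSubgroup (RatFunc k))) := by rw [← hin]; trivial
    rw [Subgroup.mem_bot, Subtype.ext_iff] at this
    have h2 : σ = 1 := this
    rw [h2, map_one]
  · set A' := A₀.comap (e.symm : L' →+* L) with hAdef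
    have hAmem : ∀ y, y ∈ A₀ ↔ e y ∈ A' := by
      intro y
      rw [hAdef, ValuationSubring.mem_comap]
      show _ ↔ e.symm (e y) ∈ A₀
      rw [RingEquiv.symm_apply_apply]
    have hA₀k : ∀ c : k, algebraMap (RatFunc k) L (algebraMap k (RatFunc k) c) ∈ A₀ := by
      intro c
      have := hxk c
      rwa [← hA₀, ValuationSubring.mem_comap] at this
    have hA₀top : A₀ ≠ ⊤ := by
      intro h
      apply hx
      rw [← hA₀, h, eq_top_iff]
      intro y _
      rw [ValuationSubring.mem_comap]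
      trivial
    refine ⟨A', ?_, ?_, ?_, ?_⟩
    · intro h
      apply hA₀top
      rw [eq_top_iff]
      intro y _
      rw [hAmem, h]
      trivial
    · intro c
      rw [he, hθk, ← hAmem]
      exact hA₀k c
    · intro h
      apply hθX
      rw [← hA₀, ValuationSubring.mem_comap, hAmem, ← he]
      exact h
    · intro σ'
      obtain ⟨σ, rfl⟩ := (autTransfer θ e he).surjective σ'
      rw [smul_transfer θ e he σ A₀ A' hAmem]
      rw [inertia_eq_top hFF A₀ ⟨hA₀top, hA₀k⟩] at hP
      constructor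
      · intro h
        have h3 : σ ∈ (⊤ : Subgroup (A₀.decompositionSubgroup (RatFunc k))).map
            (A₀.decompositionSubgroup (RatFunc k)).subtype := ⟨⟨σ, h⟩, trivial, rfl⟩
        rw [hP] at h3
        obtain ⟨g, hg, hgσ⟩ := h3
        refine ⟨g, hg, ?_⟩
        show autTransfer θ e he (φ g) = autTransfer θ e he σ
        congr 1
      · rintro ⟨g, hg, hgσ⟩
        have h4 : φ g = σ := (autTransfer θ e he).injective hgσ
        have h3 : σ ∈ P.map φ.toMonoidHom := ⟨g, hg, h4⟩
        rw [← hP] at h3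
        obtain ⟨τ, _, hτ⟩ := h3
        rw [← hτ]
        exact τ.2

/-- every place of the rational function field can be moved to infinity -/
theorem exists_move {k : Type} [Field k] [IsAlgClosed k] (x : ValuationSubring (RatFunc k))
    (hx : x ≠ ⊤) (hxk : ∀ c : k, algebraMap k (RatFunc k) c ∈ x) :
    ∃ θ : RatFunc k ≃+* RatFunc k, (∀ a : k, θ (algebraMap k _ a) = algebraMap k _ a) ∧
      θ RatFunc.X ∉ x := by
  by_cases hX : (RatFunc.X : RatFunc k) ∈ x
  · have hFF : FF k (RatFunc k) := ff_of_algebraic k (RatFunc k)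
    obtain ⟨c, hc⟩ := residue hFF x ⟨hx, hxk⟩ _ hX
    obtain ⟨θ, hθ, hθX⟩ := exists_coord k c
    refine ⟨θ, hθ, ?_⟩
    rw [hθX]
    rcases (ValuationSubring.mem_nonunits_iff_or x).1 hc with h | h
    · exfalso
      apply cc_transcendental_X k
      rw [sub_eq_zero] at h
      rw [h]
      exact isAlgebraic_algebraMap c
    · exact h
  · exact ⟨RingEquiv.refl _, fun _ => rfl, hX⟩

theorem exists_cover_of_realizable {k : Type} [Field k] [IsAlgClosed k] {G : Type} [Group G]
    [Finite G] (P : Subgroup G) (x : ValuationSubring (RatFunc k)) (hx : x ≠ ⊤)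
    (hxk : ∀ c : k, algebraMap k (RatFunc k) c ∈ x)
    (h : Realizable k G (fun _ : Fin 1 => P) (fun _ => x)) :
    ∃ (L : Type) (_ : Field L) (_ : Algebra (RatFunc k) L),
      FiniteDimensional (RatFunc k) L ∧ IsGalois (RatFunc k) L ∧
      ∃ φ : G ≃* (L ≃ₐ[RatFunc k] L),
        (∀ A : ValuationSubring L, A ≠ ⊤ →
          (∀ c : k, algebraMap (RatFunc k) L (algebraMap k (RatFunc k) c) ∈ A) →
          tX k L ∈ A → ∀ σ : L ≃ₐ[RatFunc k] L, σ • A = A → σ = 1) ∧
        ∃ A : ValuationSubring L, A ≠ ⊤ ∧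
          (∀ c : k, algebraMap (RatFunc k) L (algebraMap k (RatFunc k) c) ∈ A) ∧ tX k L ∉ A ∧
          ∀ σ : L ≃ₐ[RatFunc k] L, σ • A = A ↔ ∃ g ∈ P, φ g = σ := by
  obtain ⟨L, iF, iA, hfd, hgal, φ, h1, h2⟩ := h
  obtain ⟨A₀, hA₀, hP⟩ := h2 0
  obtain ⟨θ, hθk, hθX⟩ := exists_move x hx hxk
  refine ⟨L, iF, ((algebraMap (RatFunc k) L).comp (θ : RatFunc k →+* RatFunc k)).toAlgebra, ?_⟩
  exact @cover_transfer k _ _ G _ P x hx hxk L L iF iF iA
    ((algebraMap (RatFunc k) L).comp (θ : RatFunc k →+* RatFunc k)).toAlgebra hfd hgal θ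
    (RingEquiv.refl L) (fun _ => rfl) hθk hθX φ h1 A₀ hA₀ hP

end Pool.Agent.Helper54.PW
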