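import Pool.Agent.Helper92.PW.CoordC
import Pool.Agent.Helper92.PW.DefsReal

set_option autoImplicit false
open scoped Pointwise Polynomial

namespace Pool.Agent.Helper54.PW

theorem pn_tower {K K' F : Type} [Field K] [Field K'] [Field F] [Algebra K F] [Algebra K' F]
    (θ : K →+* K') (h : ∀ x, algebraMap K' F (θ x) = algebraMap K F x) [FiniteDimensional K F]
    [IsGalois K F] : FiniteDimensional K' F ∧ IsGalois K' F := by
  let _ : Algebra K K' := θ.toAlgebra
  have _ : IsScalarTower K K' F := IsScalarTower.of_algebraMap_eq (fun x => (h x).symm)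
  exact ⟨FiniteDimensional.right K K' F, IsGalois.tower_top_of_isGalois K K' F⟩

/-- restriction of automorphisms along a ring isomorphism and a change of the base -/
noncomputable def pnRes {k F F' : Type} [Field k] [Field F] [Algebra (RatFunc k) F]
    [Field F'] [Algebra (RatFunc k) F'] (ψ : RatFunc k →+* F) (θ : RatFunc k →+* RatFunc k)
    (hψθ : ∀ f, ψ (θ f) = algebraMap (RatFunc k) F f) (e : F ≃+* F')
    (he : ∀ f, algebraMap (RatFunc k) F' f = e (ψ f)) :
    (F' ≃ₐ[RatFunc k] F') →* (F ≃ₐ[RatFunc k] F) where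
  toFun τ := AlgEquiv.ofRingEquiv (f := (e.trans (τ : F' ≃+* F')).trans e.symm) (by
    intro f
    show e.symm (τ (e (algebraMap (RatFunc k) F f))) = algebraMap (RatFunc k) F f
    rw [← hψθ, ← he, AlgEquiv.commutes, he, RingEquiv.symm_apply_apply])
  map_one' := by
    ext y
    show e.symm (e y) = y
    simp
  map_mul' σ τ := by
    ext y
    show e.symm (σ (τ (e y))) = e.symm (σ (e (e.symm (τ (e y)))))
    simp

theorem pnRes_apply {k F F' : Type} [Field k] [Field F] [Algebra (RatFunc k) F]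
    [Field F'] [Algebra (RatFunc k) F'] (ψ : RatFunc k →+* F) (θ : RatFunc k →+* RatFunc k)
    (hψθ : ∀ f, ψ (θ f) = algebraMap (RatFunc k) F f) (e : F ≃+* F')
    (he : ∀ f, algebraMap (RatFunc k) F' f = e (ψ f)) (τ : F' ≃ₐ[RatFunc k] F') (y : F) :
    pnRes ψ θ hψθ e he τ y = e.symm (τ (e y)) := rfl

theorem pn_smul {k F F' : Type} [Field k] [Field F] [Algebra (RatFunc k) F]
    [Field F'] [Algebra (RatFunc k) F'] (ψ : RatFunc k →+* F) (θ : RatFunc k →+* RatFunc k)
    (hψθ : ∀ f, ψ (θ f) = algebraMap (RatFunc k) F f) (e : F ≃+* F')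
    (he : ∀ f, algebraMap (RatFunc k) F' f = e (ψ f)) (τ : F' ≃ₐ[RatFunc k] F')
    (A : ValuationSubring F) (A' : ValuationSubring F') (hA : ∀ y, y ∈ A ↔ e y ∈ A') :
    pnRes ψ θ hψθ e he τ • A = A ↔ τ • A' = A' := by
  rw [eq_comm, eq_comm (b := A'), ValuationSubring.ext_iff, ValuationSubring.ext_iff]
  simp only [ValuationSubring.mem_pointwise_smul_iff_inv_smul_mem]
  constructor
  · intro h y
    have h1 := h (e.symm y)
    rw [hA, RingEquiv.apply_symm_apply, ← map_inv] at h1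
    rw [h1, hA]
    show e (pnRes ψ θ hψθ e he τ⁻¹ (e.symm y)) ∈ A' ↔ τ⁻¹ y ∈ A'
    rw [pnRes_apply, RingEquiv.apply_symm_apply, RingEquiv.apply_symm_apply]
  · intro h y
    have h1 := h (e y)
    rw [← hA] at h1
    rw [h1, hA, ← map_inv]
    show τ⁻¹ (e y) ∈ A' ↔ e (pnRes ψ θ hψθ e he τ⁻¹ y) ∈ A'
    rw [pnRes_apply, RingEquiv.apply_symm_apply]

theorem pn_core {k F F' : Type} [Field k] [IsAlgClosed k] [Field F] [Algebra k F]
    [Algebra (RatFunc k) F] [IsScalarTower k (RatFunc k) F] [Field F'] [Algebra (RatFunc k) F']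
    {G : Type} [Group G]
    (P : Subgroup G) (z : F) (ψ : RatFunc k →+* F) (θ : RatFunc k →+* RatFunc k)
    (hψθ : ∀ f, ψ (θ f) = algebraMap (RatFunc k) F f) (e : F ≃+* F')
    (he : ∀ f, algebraMap (RatFunc k) F' f = e (ψ f))
    (hψk : ∀ a : k, ψ (algebraMap k _ a) = algebraMap k F a) (hψX : ψ RatFunc.X = z)
    (ρ : (F ≃ₐ[RatFunc k] F) →* G) (h1 : ∀ g, ∃ σ : F ≃ₐ[RatFunc k] F, σ z = z ∧ ρ σ = g)
    (h2 : ∀ A : ValuationSubring F, IsPlace k A → z ∈ A →
      ∀ σ : F ≃ₐ[RatFunc k] F, σ z = z → σ • A = A → ρ σ = 1)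
    (B : ValuationSubring F) (hB : IsPlace k B) (hzB : z ∉ B)
    (h3 : ∀ g, g ∈ P ↔ ∃ σ : F ≃ₐ[RatFunc k] F, σ z = z ∧ σ • B = B ∧ ρ σ = g) :
    ∃ ρ : (F' ≃ₐ[RatFunc k] F') →* G, Function.Surjective ρ ∧
    (∀ A : ValuationSubring F', A ≠ ⊤ →
      (∀ c : k, algebraMap (RatFunc k) F' (algebraMap k (RatFunc k) c) ∈ A) →
      tX k F' ∈ A → ∀ σ : F' ≃ₐ[RatFunc k] F', σ • A = A → ρ σ = 1) ∧
    ∃ A : ValuationSubring F', A ≠ ⊤ ∧
      (∀ c : k, algebraMap (RatFunc k) F' (algebraMap k (RatFunc k) c) ∈ A) ∧ tX k F' ∉ A ∧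
      ∀ g, g ∈ P ↔ ∃ σ : F' ≃ₐ[RatFunc k] F', σ • A = A ∧ ρ σ = g := by
  have htX : tX k F' = e z := by
    rw [tX, he, hψX]
  have hconst : ∀ c : k, algebraMap (RatFunc k) F' (algebraMap k (RatFunc k) c)
      = e (algebraMap k F c) := fun c => by rw [he, hψk]
  have hfix : ∀ τ : F' ≃ₐ[RatFunc k] F', pnRes ψ θ hψθ e he τ z = z := by
    intro τ
    rw [pnRes_apply, ← htX, tX, AlgEquiv.commutes, ← tX, htX, RingEquiv.symm_apply_apply]
  have hlift : ∀ σ : F ≃ₐ[RatFunc k] F, σ z = z → ∃ τ, pnRes ψ θ hψθ e he τ = σ := by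
    intro σ hσ
    have hσψ : ∀ f, σ (ψ f) = ψ f := by
      have : ((σ : F →+* F).comp ψ) = ψ := by
        apply cc_hom_ext
        · intro c
          show σ (ψ (algebraMap k _ c)) = ψ (algebraMap k _ c)
          rw [hψk, IsScalarTower.algebraMap_apply k (RatFunc k) F, AlgEquiv.commutes]
        · show σ (ψ RatFunc.X) = ψ RatFunc.X
          rw [hψX, hσ]
      intro f
      exact congrArg (fun g : RatFunc k →+* F => g f) this
    refine ⟨AlgEquiv.ofRingEquiv (f := (e.symm.trans (σ : F ≃+* F)).trans e) ?_, ?_⟩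
    · intro f
      show e (σ (e.symm (algebraMap (RatFunc k) F' f))) = algebraMap (RatFunc k) F' f
      rw [he, RingEquiv.symm_apply_apply, hσψ]
    · ext y
      rw [pnRes_apply]
      show e.symm (e (σ (e.symm (e y)))) = σ y
      simp
  refine ⟨ρ.comp (pnRes ψ θ hψθ e he), ?_, ?_, ?_⟩
  · intro g
    obtain ⟨σ, hσz, hσ⟩ := h1 g
    obtain ⟨τ, rfl⟩ := hlift σ hσz
    exact ⟨τ, hσ⟩
  · intro A' hA' hk hX τ hτ
    set A := A'.comap (e : F →+* F') with hAdef
    have hAmem : ∀ y, y ∈ A ↔ e y ∈ A' := fun y => ValuationSubring.mem_comap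
    rw [← pn_smul ψ θ hψθ e he τ A A' hAmem] at hτ
    refine h2 A ⟨?_, ?_⟩ ?_ _ (hfix τ) hτ
    · intro h
      apply hA'
      rw [eq_top_iff]
      intro y _
      have : e.symm y ∈ A := by rw [h]; trivial
      rw [hAmem, RingEquiv.apply_symm_apply] at this
      exact this
    · intro c
      rw [hAmem, ← hconst]
      exact hk c
    · rw [hAmem, ← htX]
      exact hX
  · set A' := B.comap (e.symm : F' →+* F) with hAdef
    have hAmem : ∀ y, y ∈ B ↔ e y ∈ A' := by
      intro y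
      rw [hAdef, ValuationSubring.mem_comap]
      show _ ↔ e.symm (e y) ∈ B
      rw [RingEquiv.symm_apply_apply]
    refine ⟨A', ?_, ?_, ?_, ?_⟩
    · intro h
      apply hB.1
      rw [eq_top_iff]
      intro y _
      rw [hAmem, h]
      trivial
    · intro c
      rw [hconst, ← hAmem]
      exact hB.2 c
    · rw [htX, ← hAmem]
      exact hzB
    · intro g
      rw [h3]
      constructor
      · rintro ⟨σ, hσz, hσB, hσ⟩
        obtain ⟨τ, rfl⟩ := hlift σ hσz
        exact ⟨τ, (pn_smul ψ θ hψθ e he τ B A' hAmem).1 hσB, hσ⟩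
      · rintro ⟨τ, hτ, hg⟩
        exact ⟨_, hfix τ, (pn_smul ψ θ hψθ e he τ B A' hAmem).2 hτ, hg⟩

theorem realAct_of_pullback {p : ℕ} [Fact p.Prime] {k F : Type} [Field k] [IsAlgClosed k]
    [CharP k p] [Field F] [Algebra k F] [Algebra (RatFunc k) F] [IsScalarTower k (RatFunc k) F]
    [FiniteDimensional (RatFunc k) F] [IsGalois (RatFunc k) F] {G : Type} [Group G]
    (P : Subgroup G) (z : F) (α : k) (hα : α ≠ 0) (hz : z ^ p - z = algebraMap k F α * tX k F)
    (ρ : (F ≃ₐ[RatFunc k] F) →* G) (h1 : ∀ g, ∃ σ : F ≃ₐ[RatFunc k] F, σ z = z ∧ ρ σ = g)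
    (h2 : ∀ A : ValuationSubring F, IsPlace k A → z ∈ A →
      ∀ σ : F ≃ₐ[RatFunc k] F, σ z = z → σ • A = A → ρ σ = 1)
    (B : ValuationSubring F) (hB : IsPlace k B) (hzB : z ∉ B)
    (h3 : ∀ g, g ∈ P ↔ ∃ σ : F ≃ₐ[RatFunc k] F, σ z = z ∧ σ • B = B ∧ ρ σ = g) :
    RealAct k P := by
  have hαF : algebraMap k F α ≠ 0 := by
    rwa [Ne, map_eq_zero_iff _ (algebraMap k F).injective]
  have htX : tX k F = (algebraMap k F α)⁻¹ * (z ^ p - z) := by
    rw [hz, ← mul_assoc, inv_mul_cancel₀ hαF, one_mul]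
  have hztr : Transcendental k z := by
    intro h
    have h4 : IsAlgebraic k (tX k F) := by
      rw [htX, ← map_inv₀]
      exact (isAlgebraic_algebraMap _).mul ((h.pow p).sub h)
    apply cc_transcendental_X k
    rw [tX, ← IsScalarTower.coe_toAlgHom' k (RatFunc k) F] at h4
    exact (isAlgebraic_algHom_iff _ (algebraMap (RatFunc k) F).injective).1 h4
  have hinj : Function.Injective (Polynomial.aeval z : k[X] →ₐ[k] F) :=
    transcendental_iff_injective.1 hztr
  obtain ⟨ψ, hψX⟩ : ∃ ψ : RatFunc k →ₐ[k] F, ψ RatFunc.X = z := by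
    refine ⟨RatFunc.liftAlgHom (Polynomial.aeval z)
      (nonZeroDivisors_le_comap_nonZeroDivisors_of_injective _ hinj), ?_⟩
    have := RatFunc.liftAlgHom_apply_div (Polynomial.aeval z)
      (nonZeroDivisors_le_comap_nonZeroDivisors_of_injective _ hinj) Polynomial.X 1
    simpa using this
  set u : RatFunc k := (algebraMap k _ α)⁻¹ * (RatFunc.X ^ p - RatFunc.X) with hu
  have hψu : ψ u = tX k F := by
    rw [hu, map_mul, map_inv₀, ψ.commutes, map_sub, map_pow, hψX, htX]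
  have hutr : Transcendental k u := by
    intro h
    have h4 : IsAlgebraic k (tX k F) := by
      rw [← hψu]
      exact h.algHom ψ
    apply cc_transcendental_X k
    rw [tX, ← IsScalarTower.coe_toAlgHom' k (RatFunc k) F] at h4
    exact (isAlgebraic_algHom_iff _ (algebraMap (RatFunc k) F).injective).1 h4
  obtain ⟨θ, hθ⟩ := cc_exists_hom k u hutr
  have hψθ : ∀ f, (ψ : RatFunc k →+* F) ((θ : RatFunc k →+* RatFunc k) f)
      = algebraMap (RatFunc k) F f := by
    have : (ψ : RatFunc k →+* F).comp (θ : RatFunc k →+* RatFunc k)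
        = algebraMap (RatFunc k) F := by
      apply cc_hom_ext
      · intro c
        show ψ (θ (algebraMap k _ c)) = _
        rw [θ.commutes, ψ.commutes, IsScalarTower.algebraMap_apply k (RatFunc k) F]
      · show ψ (θ RatFunc.X) = _
        rw [hθ, hψu, tX]
    intro f
    exact congrArg (fun g : RatFunc k →+* F => g f) this
  obtain ⟨hfd, hgal⟩ := @pn_tower (RatFunc k) (RatFunc k) F _ _ _ _
    (ψ : RatFunc k →+* F).toAlgebra (θ : RatFunc k →+* RatFunc k) hψθ _ _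
  refine ⟨F, inferInstance, (ψ : RatFunc k →+* F).toAlgebra, hfd, hgal, ?_⟩
  exact @pn_core k F F _ _ _ _ _ _ _ (ψ : RatFunc k →+* F).toAlgebra G _ P z
    (ψ : RatFunc k →+* F) (θ : RatFunc k →+* RatFunc k) hψθ (RingEquiv.refl F) (fun _ => rfl)
    (fun a => ψ.commutes a) hψX ρ h1 h2 B hB hzB h3

end Pool.Agent.Helper54.PW
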